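import Pool.Agent.Lib.H85TF.P2
import Pool.Agent.Lib.H98M.M0
import Pool.Agent.Lib.H47G.Menger

/-!
# H56PT, file A: a path from `s` to `t` through a third vertex in a 2-connected graph

`dg_path`: the degrees in the edge set of a path. `st_path`: in a 2-connected graph there is a path from `s` to `t`
through every other vertex `v` (Menger's theorem `H47G.menger`); it does not use the edge `st`.
-/

set_option autoImplicit false
set_option linter.unusedSectionVars false

namespace H56PT

open Finset H85TF

theorem dg_path {W : Type*} [DecidableEq W] {E : Set (Sym2 W)} {x d : W}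
    (p : (SimpleGraph.fromEdgeSet E).Walk x d) (hp : p.IsPath) (r : W) :
    dg p.edges.toFinset r + (if r = x then 1 else 0) + (if r = d then 1 else 0) =
      if r ∈ p.support then 2 else 0 := by
  induction p with
  | nil =>
    rename_i u
    simp only [SimpleGraph.Walk.edges_nil, List.toFinset_nil, SimpleGraph.Walk.support_nil,
      List.mem_singleton]
    by_cases h : r = u <;> simp [h, dg]
  | @cons x y d h q ih =>
    rw [SimpleGraph.Walk.cons_isPath_iff] at hp
    have ih := ih hp.1
    have hxy : x ≠ y := h.ne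
    have hn : s(x, y) ∉ q.edges.toFinset := by
      intro h1
      rw [List.mem_toFinset] at h1
      exact hp.2 (q.fst_mem_support_of_mem_edges h1)
    rw [SimpleGraph.Walk.edges_cons, List.toFinset_cons, dg_insert hn,
      SimpleGraph.Walk.support_cons]
    have hd : d ∈ q.support := q.end_mem_support
    have hy : y ∈ q.support := q.start_mem_support
    by_cases h1 : r = x
    · subst h1
      have h2 : r ∉ q.support := hp.2
      have h3 : r ≠ d := fun e => h2 (e ▸ hd)
      have h4 : r ∈ r :: q.support := List.mem_cons_self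
      rw [if_neg h2, if_neg hxy, if_neg h3] at ih
      rw [if_pos (Or.inl rfl), if_pos rfl, if_neg h3, if_pos h4]
      omega
    · by_cases h2 : r = y
      · subst h2
        have h4 : r ∈ x :: q.support := List.mem_cons_of_mem _ hy
        rw [if_pos hy, if_pos rfl] at ih
        rw [if_neg h1, if_pos (Or.inr rfl), if_pos h4]
        omega
      · rw [if_neg h2] at ih
        rw [if_neg h1, if_neg (by tauto : ¬ (r = x ∨ r = y))]
        by_cases h3 : r ∈ q.support
        · have h4 : r ∈ x :: q.support := List.mem_cons_of_mem _ h3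
          rw [if_pos h3] at ih
          rw [if_pos h4]
          omega
        · have h4 : r ∉ x :: q.support := by
            rw [List.mem_cons]
            tauto
          rw [if_neg h3] at ih
          rw [if_neg h4]
          omega

/-- Connected sets in the sense of `H47G.Conn` are not disconnected. -/
theorem not_disc_of_conn {V : Type} [DecidableEq V] {G : Finset (Sym2 V)} {f : Finset V}
    (h : H47G.Conn (SimpleGraph.fromEdgeSet (G : Set (Sym2 V))) f) : ¬ H98M.Disc f G := by
  rintro ⟨C, D, hC, hD, hCD, hU, hno⟩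
  have h1 : C ⊆ f := hU ▸ subset_union_left
  have h2 : C ≠ f := by
    intro e
    obtain ⟨y, hy⟩ := hD
    have h3 : y ∈ f := hU ▸ mem_union_right _ hy
    exact disjoint_left.1 hCD (e ▸ h3) hy
  obtain ⟨a, ha, b, hb, hbC, hab⟩ := h C h1 hC h2
  have h4 : b ∈ D := by
    have h5 : b ∈ C ∪ D := hU ▸ hb
    exact (mem_union.1 h5).resolve_left hbC
  rw [SimpleGraph.fromEdgeSet_adj] at hab
  exact hno a ha b h4 (by exact_mod_cast hab.1)

open scoped Classical in
/-- In a 2-connected graph there are disjoint connected sets which join the neighbourhood of `v` to `s` and to `t`. -/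
theorem two_fan {V : Type} [Fintype V] [inst : DecidableEq V] {G : Finset (Sym2 V)} (hc : ¬ H98M.Disc univ G)
    (hcut : ∀ z, ¬ H98M.Disc (univ.erase z) G) {s t v : V} (hst : s ≠ t) (hvs : v ≠ s) (hvt : v ≠ t) :
    ∃ f g : Finset V, Disjoint f g ∧ v ∉ f ∧ v ∉ g ∧ s ∈ f ∧ t ∈ g ∧ ¬ H98M.Disc f G ∧
      ¬ H98M.Disc g G ∧ (∃ a ∈ f, s(v, a) ∈ G) ∧ ∃ b ∈ g, s(v, b) ∈ G := by
  have einst : inst = fun a b => Classical.propDecidable (a = b) := Subsingleton.elim _ _
  subst einst
  set S : Finset V := univ.erase v with hS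
  set A : Finset V := S.filter fun x => s(v, x) ∈ G with hA
  have hB : ({s, t} : Finset V) ⊆ S := by
    intro x hx
    rw [mem_insert, mem_singleton] at hx
    rw [hS, mem_erase]
    rcases hx with rfl | rfl
    · exact ⟨Ne.symm hvs, mem_univ _⟩
    · exact ⟨Ne.symm hvt, mem_univ _⟩
  have key := H47G.menger (G := SimpleGraph.fromEdgeSet (G : Set (Sym2 V))) (S := S) (A := A)
    (B := {s, t}) (k := 2) (filter_subset _ _) hB ?_
  · obtain ⟨f, f1, f2, f3, f4, f5⟩ := key
    have hvf : ∀ i, v ∉ f i := fun i h => by
      have h1 := f1 i h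
      rw [hS] at h1
      exact (mem_erase.1 h1).1 rfl
    have hnb : ∀ i, ∃ a ∈ f i, s(v, a) ∈ G := by
      intro i
      obtain ⟨a, ha⟩ := f3 i
      rw [mem_inter, hA, mem_filter] at ha
      exact ⟨a, ha.1, ha.2.2⟩
    have h01 : Disjoint (f 0) (f 1) := f5 0 1 (by decide)
    obtain ⟨x, hx⟩ := f4 0
    obtain ⟨y, hy⟩ := f4 1
    rw [mem_inter, mem_insert, mem_singleton] at hx hy
    have hxy : x ≠ y := fun e => disjoint_left.1 h01 hx.1 (e ▸ hy.1)
    rcases hx.2 with rfl | rfl
    · rcases hy.2 with rfl | rfl
      · exact absurd rfl hxy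
      · exact ⟨f 0, f 1, h01, hvf 0, hvf 1, hx.1, hy.1, not_disc_of_conn (f2 0),
          not_disc_of_conn (f2 1), hnb 0, hnb 1⟩
    · rcases hy.2 with rfl | rfl
      · exact ⟨f 1, f 0, h01.symm, hvf 1, hvf 0, hy.1, hx.1, not_disc_of_conn (f2 1),
          not_disc_of_conn (f2 0), hnb 1, hnb 0⟩
      · exact absurd rfl hxy
  · intro Z U hZU
    by_contra hlt
    have hZ1 : Z.card ≤ 1 := by omega
    have hvZ : v ∉ Z := by
      intro h
      have h1 := hZU.zs h
      rw [hS] at h1
      exact (mem_erase.1 h1).1 rfl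
    -- the two parts
    have hdisc : H98M.Disc (univ \ Z) G := by
      refine ⟨insert v U, (univ \ Z) \ insert v U, ⟨v, mem_insert_self _ _⟩, ?_, disjoint_sdiff, ?_, ?_⟩
      · have h1 : ∃ x ∈ ({s, t} : Finset V), x ∉ Z := by
          by_contra hcon
          push Not at hcon
          have h2 : ({s, t} : Finset V).card ≤ Z.card := card_le_card hcon
          rw [card_pair hst] at h2
          omega
        obtain ⟨x, hx, hxZ⟩ := h1
        refine ⟨x, mem_sdiff.2 ⟨mem_sdiff.2 ⟨mem_univ _, hxZ⟩, ?_⟩⟩
        rw [mem_insert]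
        rintro (h2 | h2)
        · rw [mem_insert, mem_singleton] at hx
          rcases hx with h3 | h3
          · exact hvs (h2.symm.trans h3)
          · exact hvt (h2.symm.trans h3)
        · exact disjoint_left.1 hZU.ub h2 hx
      · refine union_sdiff_of_subset (insert_subset (mem_sdiff.2 ⟨mem_univ _, hvZ⟩) ?_)
        intro x hx
        exact mem_sdiff.2 ⟨mem_univ _, (mem_sdiff.1 (hZU.us hx)).2⟩
      · intro x hx y hy hxy
        rw [mem_sdiff, mem_sdiff, mem_insert] at hy
        push Not at hy
        obtain ⟨⟨-, hyZ⟩, hyv, hyU⟩ := hy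
        have hyS : y ∈ S := by
          rw [hS, mem_erase]
          exact ⟨hyv, mem_univ _⟩
        rcases mem_insert.1 hx with rfl | hxU
        · have h1 : y ∈ A := by
            rw [hA, mem_filter]
            exact ⟨hyS, hxy⟩
          exact hyU (hZU.au (mem_sdiff.2 ⟨h1, hyZ⟩))
        · refine hZU.cl x hxU y hyS hyZ hyU ?_
          rw [SimpleGraph.fromEdgeSet_adj]
          exact ⟨by exact_mod_cast hxy, fun e => hyU (e ▸ hxU)⟩
    rcases Nat.eq_zero_or_pos Z.card with h0 | h0
    · rw [card_eq_zero] at h0
      rw [h0, sdiff_empty] at hdisc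
      exact hc hdisc
    · obtain ⟨z, hz⟩ := card_eq_one.1 (by omega : Z.card = 1)
      rw [hz] at hdisc
      refine hcut z ?_
      rwa [← sdiff_singleton_eq_erase]

end H56PT
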