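import Pool.Agent.Lib.H56PT.A

/-!
# H56PT, file B: the virtual edge `st`

`up G s t`: the graph on `Option V` with the edges of `G` except `st` and a new vertex `none` adjacent to `s` and `t`.
`K G s t A`: in `up G s t` the set `A` and `none` are covered by disjoint cycles.
-/

set_option autoImplicit false
set_option linter.unusedSectionVars false

namespace H56PT

open Finset H85TF

variable {V : Type} [Fintype V] [DecidableEq V]

/-- A path from `s` to `t` through `v` which does not use the edge `st`. -/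
theorem st_path {G : Finset (Sym2 V)} (hc : ¬ H98M.Disc univ G)
    (hcut : ∀ z, ¬ H98M.Disc (univ.erase z) G) {s t v : V} (hst : s ≠ t) (hvs : v ≠ s) (hvt : v ≠ t) :
    ∃ p : (SimpleGraph.fromEdgeSet ((G.erase s(s, t) : Finset (Sym2 V)) : Set (Sym2 V))).Walk s t,
      p.IsPath ∧ v ∈ p.support := by
  obtain ⟨f, g, hfg, hvf, hvg, hsf, htg, hf, hg, ⟨a, haf, hva⟩, b, hbg, hvb⟩ :=
    two_fan hc hcut hst hvs hvt
  have htf : t ∉ f := fun h => disjoint_left.1 hfg h htg
  have hsg : s ∉ g := fun h => disjoint_left.1 hfg hsf h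
  have hf' : ¬ H98M.Disc f (G.erase s(s, t)) := by
    rintro ⟨C, D, h1, h2, h3, h4, h5⟩
    refine hf ⟨C, D, h1, h2, h3, h4, fun x hx y hy hxy => h5 x hx y hy (mem_erase.2 ⟨fun e => ?_, hxy⟩)⟩
    have hx' : x ∈ f := h4 ▸ mem_union_left _ hx
    have hy' : y ∈ f := h4 ▸ mem_union_right _ hy
    rw [Sym2.eq_iff] at e
    rcases e with ⟨-, e⟩ | ⟨e, -⟩
    · exact htf (e ▸ hy')
    · exact htf (e ▸ hx')
  have hg' : ¬ H98M.Disc g (G.erase s(s, t)) := by
    rintro ⟨C, D, h1, h2, h3, h4, h5⟩
    refine hg ⟨C, D, h1, h2, h3, h4, fun x hx y hy hxy => h5 x hx y hy (mem_erase.2 ⟨fun e => ?_, hxy⟩)⟩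
    have hx' : x ∈ g := h4 ▸ mem_union_left _ hx
    have hy' : y ∈ g := h4 ▸ mem_union_right _ hy
    rw [Sym2.eq_iff] at e
    rcases e with ⟨e, -⟩ | ⟨-, e⟩
    · exact hsg (e ▸ hx')
    · exact hsg (e ▸ hy')
  obtain ⟨p, hp, hpf⟩ := path_of_not_disc hf' hsf haf
  obtain ⟨q, hq, hqg⟩ := path_of_not_disc hg' hbg htg
  have hne : ∀ x, s(v, x) ≠ s(s, t) := by
    intro x e
    rw [Sym2.eq_iff] at e
    rcases e with ⟨e, -⟩ | ⟨e, -⟩
    · exact hvs e
    · exact hvt e
  have hav : a ≠ v := fun e => hvf (e ▸ haf)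
  have hbv : v ≠ b := fun e => hvg (e ▸ hbg)
  have h1 : (SimpleGraph.fromEdgeSet ((G.erase s(s, t) : Finset (Sym2 V)) : Set (Sym2 V))).Adj a v := by
    rw [SimpleGraph.fromEdgeSet_adj]
    refine ⟨?_, hav⟩
    have e : s(a, v) = s(v, a) := Sym2.eq_swap
    rw [mem_coe, e]
    exact mem_erase.2 ⟨hne a, hva⟩
  have h2 : (SimpleGraph.fromEdgeSet ((G.erase s(s, t) : Finset (Sym2 V)) : Set (Sym2 V))).Adj v b := by
    rw [SimpleGraph.fromEdgeSet_adj]
    refine ⟨?_, hbv⟩
    rw [mem_coe]
    exact mem_erase.2 ⟨hne b, hvb⟩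
  refine ⟨p.append (SimpleGraph.Walk.cons h1 (SimpleGraph.Walk.cons h2 q)), ?_, ?_⟩
  · rw [SimpleGraph.Walk.isPath_def, SimpleGraph.Walk.support_append]
    simp only [SimpleGraph.Walk.support_cons, List.tail_cons]
    rw [List.nodup_append]
    refine ⟨hp.support_nodup, ?_, ?_⟩
    · rw [List.nodup_cons]
      exact ⟨fun h => hvg (hqg v h), hq.support_nodup⟩
    · intro x hx y hy e
      subst e
      rcases List.mem_cons.1 hy with e | h3
      · exact hvf (e ▸ hpf x hx)
      · exact disjoint_left.1 hfg (hpf x hx) (hqg x h3)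
  · rw [SimpleGraph.Walk.support_append]
    simp

/-- The graph with the virtual edge. -/
def up (G : Finset (Sym2 V)) (s t : V) : Finset (Sym2 (Option V)) :=
  insert s(none, some s) (insert s(none, some t) ((G.erase s(s, t)).image (Sym2.map some)))

def K (G : Finset (Sym2 V)) (s t : V) (A : Finset V) : Prop :=
  Cov (up G s t) (insert none (A.image some))

theorem up_mono {G G' : Finset (Sym2 V)} (h : G ⊆ G') (s t : V) : up G s t ⊆ up G' s t :=
  insert_subset_insert _ (insert_subset_insert _ (image_subset_image (erase_subset_erase _ h)))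

theorem up_diag {G : Finset (Sym2 V)} (hG : ∀ e ∈ G, ¬ e.IsDiag) (s t : V) :
    ∀ e ∈ up G s t, ¬ e.IsDiag := by
  intro e he
  rcases mem_insert.1 he with rfl | he
  · simp
  rcases mem_insert.1 he with rfl | he
  · simp
  obtain ⟨e', he', rfl⟩ := mem_image.1 he
  have h1 := hG e' (mem_of_mem_erase he')
  induction e' with
  | _ a b =>
    rw [Sym2.mk_isDiag_iff] at h1
    rw [Sym2.map_mk, Sym2.mk_isDiag_iff]
    exact fun e => h1 (Option.some_injective _ e)

theorem K_sub {G : Finset (Sym2 V)} {s t : V} {A B : Finset V} (h : A ⊆ B) (hB : K G s t B) : K G s t A :=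
  cov_sub (insert_subset_insert _ (image_subset_image h)) hB

theorem K_mono {G G' : Finset (Sym2 V)} {s t : V} {A : Finset V} (h : G ⊆ G') (hA : K G s t A) :
    K G' s t A := cov_edges (up_mono h s t) hA

/-- The edges at `none`. -/
theorem mem_none {G : Finset (Sym2 V)} {s t : V} {e : Sym2 (Option V)} (he : e ∈ up G s t)
    (hn : none ∈ e) : e = s(none, some s) ∨ e = s(none, some t) := by
  rcases mem_insert.1 he with h | he
  · exact Or.inl h
  rcases mem_insert.1 he with h | he
  · exact Or.inr h
  obtain ⟨e', he', rfl⟩ := mem_image.1 he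
  rw [Sym2.mem_map] at hn
  obtain ⟨a, -, ha⟩ := hn
  exact absurd ha (Option.some_ne_none a)

/-- If `none` has degree `2` then both edges at `none` are used. -/
theorem none_edges {G : Finset (Sym2 V)} {s t : V} {F : Finset (Sym2 (Option V))}
    (hF : F ⊆ up G s t) (h : dg F none = 2) : s(none, some s) ∈ F ∧ s(none, some t) ∈ F := by
  have h1 : (F.filter fun e => none ∈ e) ⊆ {s(none, some s), s(none, some t)} := by
    intro e he
    obtain ⟨h2, h3⟩ := mem_filter.1 he
    rw [mem_insert, mem_singleton]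
    exact mem_none (hF h2) h3
  have h2 : ({s(none, some s), s(none, some t)} : Finset (Sym2 (Option V))).card ≤
      (F.filter fun e => none ∈ e).card := by
    have h3 : (F.filter fun e => none ∈ e).card = 2 := h
    rw [h3]
    exact card_le_two
  have h3 := eq_of_subset_of_card_le h1 h2
  constructor
  · have h4 : s(none, some s) ∈ F.filter fun e => none ∈ e := by rw [h3]; simp
    exact (mem_filter.1 h4).1
  · have h4 : s(none, some t) ∈ F.filter fun e => none ∈ e := by rw [h3]; simp
    exact (mem_filter.1 h4).1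

theorem dg_pos {W : Type*} [DecidableEq W] {F : Finset (Sym2 W)} {e : Sym2 W} {x : W} (he : e ∈ F)
    (hx : x ∈ e) : 0 < dg F x := card_pos.2 ⟨e, mem_filter.2 ⟨he, hx⟩⟩

theorem K_s {G : Finset (Sym2 V)} {s t : V} {A : Finset V} (h : K G s t A) : K G s t (insert s A) := by
  obtain ⟨F, h1, h2, h3⟩ := h
  refine ⟨F, h1, h2, fun v hv => ?_⟩
  rw [image_insert, mem_insert, mem_insert] at hv
  rcases hv with rfl | rfl | hv
  · exact h3 _ (mem_insert_self _ _)
  · have h4 := dg_pos (none_edges h1 (h3 none (mem_insert_self _ _))).1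
      (Sym2.mem_mk_right none (some s))
    exact (h2 (some s)).resolve_left (by omega)
  · exact h3 _ (mem_insert_of_mem hv)

theorem K_t {G : Finset (Sym2 V)} {s t : V} {A : Finset V} (h : K G s t A) : K G s t (insert t A) := by
  obtain ⟨F, h1, h2, h3⟩ := h
  refine ⟨F, h1, h2, fun v hv => ?_⟩
  rw [image_insert, mem_insert, mem_insert] at hv
  rcases hv with rfl | rfl | hv
  · exact h3 _ (mem_insert_self _ _)
  · have h4 := dg_pos (none_edges h1 (h3 none (mem_insert_self _ _))).2
      (Sym2.mem_mk_right none (some t))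
    exact (h2 (some t)).resolve_left (by omega)
  · exact h3 _ (mem_insert_of_mem hv)

theorem map_some_inj : Function.Injective (Sym2.map (some : V → Option V)) :=
  Sym2.map.injective (Option.some_injective V)

theorem dg_image (P : Finset (Sym2 V)) (r : V) : dg (P.image (Sym2.map some)) (some r) = dg P r := by
  unfold dg
  rw [filter_image, card_image_of_injective _ map_some_inj]
  congr 1
  refine filter_congr fun e _ => ?_
  rw [Sym2.mem_map]
  constructor
  · rintro ⟨a, ha, h⟩
    rwa [← Option.some_injective _ h]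
  · exact fun h => ⟨r, h, rfl⟩

theorem dg_image_none (P : Finset (Sym2 V)) : dg (P.image (Sym2.map some)) none = 0 := by
  unfold dg
  rw [card_eq_zero, filter_eq_empty_iff]
  intro e he hn
  obtain ⟨e', he', rfl⟩ := mem_image.1 he
  rw [Sym2.mem_map] at hn
  obtain ⟨a, -, ha⟩ := hn
  exact absurd ha (Option.some_ne_none a)

theorem none_notMem (P : Finset (Sym2 V)) (x : V) : s(none, some x) ∉ P.image (Sym2.map some) := by
  intro h
  obtain ⟨e', he', h1⟩ := mem_image.1 h
  have h2 : none ∈ Sym2.map some e' := by rw [h1]; exact Sym2.mem_mk_left _ _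
  rw [Sym2.mem_map] at h2
  obtain ⟨a, -, ha⟩ := h2
  exact absurd ha (Option.some_ne_none a)

/-- The degrees after adding the two virtual edges. -/
theorem dg_up {P : Finset (Sym2 V)} {s t : V} (hst : s ≠ t) :
    (∀ r, dg (insert s(none, some s) (insert s(none, some t) (P.image (Sym2.map some)))) (some r) =
      dg P r + (if r = s then 1 else 0) + (if r = t then 1 else 0)) ∧
    dg (insert s(none, some s) (insert s(none, some t) (P.image (Sym2.map some)))) none = 2 := by
  have h1 : s(none, some s) ∉ insert s(none, some t) (P.image (Sym2.map some)) := by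
    rw [mem_insert]
    rintro (h | h)
    · rw [Sym2.eq_iff] at h
      rcases h with ⟨-, h⟩ | ⟨h, -⟩
      · exact hst (Option.some_injective _ h)
      · exact absurd h (Option.some_ne_none t).symm
    · exact none_notMem P s h
  constructor
  · intro r
    rw [dg_insert h1, dg_insert (none_notMem P t), dg_image]
    simp only [reduceCtorEq, false_or, Option.some.injEq]
    omega
  · rw [dg_insert h1, dg_insert (none_notMem P t), dg_image_none]
    simp

theorem K_single {G : Finset (Sym2 V)} (hc : ¬ H98M.Disc univ G)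
    (hcut : ∀ z, ¬ H98M.Disc (univ.erase z) G) {s t v : V} (hst : s ≠ t) (hvs : v ≠ s) (hvt : v ≠ t) :
    K G s t {v} := by
  obtain ⟨p, hp, hv⟩ := st_path hc hcut hst hvs hvt
  have hdeg := dg_path p hp
  obtain ⟨h1, h2⟩ := dg_up (P := p.edges.toFinset) hst
  refine ⟨insert s(none, some s) (insert s(none, some t) (p.edges.toFinset.image (Sym2.map some))),
    ?_, ?_, ?_⟩
  · refine insert_subset_insert _ (insert_subset_insert _ (image_subset_image ?_))
    intro e he
    rw [List.mem_toFinset] at he
    have h3 := p.edges_subset_edgeSet he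
    rw [SimpleGraph.edgeSet_fromEdgeSet] at h3
    exact_mod_cast h3.1
  · intro x
    cases x with
    | none => exact Or.inr h2
    | some r =>
      rw [h1, hdeg]
      split
      · exact Or.inr rfl
      · exact Or.inl rfl
  · intro x hx
    rw [image_singleton, mem_insert, mem_singleton] at hx
    rcases hx with rfl | rfl
    · exact h2
    · rw [h1, hdeg, if_pos hv]

/-- The exchange property of `K`. -/
theorem K_exch {G : Finset (Sym2 V)} (hG : ∀ e ∈ G, ¬ e.IsDiag) {s t : V} (A : Finset V) (b d : V)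
    (U : Finset V) (hb : K G s t (insert b A)) (hd : K G s t (insert d A)) (hbU : b ∈ U) (hdU : d ∈ U)
    (hU : ¬ H98M.Disc U G) (hin : ∀ u ∈ U, u ≠ b → u ≠ d → ¬ K G s t (insert u A)) :
    K G s t (insert b (insert d A)) := by
  have hA : K G s t A := K_sub (subset_insert _ _) hb
  by_cases h1 : b = s
  · subst h1; exact K_s hd
  by_cases h2 : b = t
  · subst h2; exact K_t hd
  by_cases h3 : d = s
  · subst h3; rw [insert_comm]; exact K_s hb
  by_cases h4 : d = t
  · subst h4; rw [insert_comm]; exact K_t hb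
  have hsU : s ∉ U := fun h => hin s h (Ne.symm h1) (Ne.symm h3) (K_s hA)
  have htU : t ∉ U := fun h => hin t h (Ne.symm h2) (Ne.symm h4) (K_t hA)
  have key := exch_set (up_diag hG s t) (A := insert none (A.image some)) (U := U.image some)
    (b := some b) (d := some d)
    (by rw [insert_comm, ← image_insert]; exact hb) (by rw [insert_comm, ← image_insert]; exact hd)
    (mem_image_of_mem _ hbU) (mem_image_of_mem _ hdU) ?_ ?_
  · rw [insert_comm (some d), insert_comm (some b), ← image_insert, ← image_insert] at key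
    exact key
  · rintro ⟨C, D, hC, hD, hCD, hCU, hno⟩
    have hC' : ∀ x ∈ C, ∃ y ∈ U, some y = x := fun x hx => by
      have h5 : x ∈ U.image some := hCU ▸ mem_union_left _ hx
      exact mem_image.1 h5
    have hD' : ∀ x ∈ D, ∃ y ∈ U, some y = x := fun x hx => by
      have h5 : x ∈ U.image some := hCU ▸ mem_union_right _ hx
      exact mem_image.1 h5
    refine hU ⟨U.filter fun x => some x ∈ C, U.filter fun x => some x ∈ D, ?_, ?_, ?_, ?_, ?_⟩
    · obtain ⟨x, hx⟩ := hC
      obtain ⟨y, hy, rfl⟩ := hC' x hx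
      exact ⟨y, mem_filter.2 ⟨hy, hx⟩⟩
    · obtain ⟨x, hx⟩ := hD
      obtain ⟨y, hy, rfl⟩ := hD' x hx
      exact ⟨y, mem_filter.2 ⟨hy, hx⟩⟩
    · rw [disjoint_left]
      intro x hx hx'
      exact disjoint_left.1 hCD (mem_filter.1 hx).2 (mem_filter.1 hx').2
    · ext x
      rw [mem_union, mem_filter, mem_filter]
      constructor
      · rintro (h | h) <;> exact h.1
      · intro h
        have h5 : some x ∈ C ∪ D := hCU ▸ mem_image_of_mem _ h
        rcases mem_union.1 h5 with h6 | h6
        · exact Or.inl ⟨h, h6⟩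
        · exact Or.inr ⟨h, h6⟩
    · intro x hx y hy hxy
      rw [mem_filter] at hx hy
      refine hno _ hx.2 _ hy.2 ?_
      unfold up
      refine mem_insert_of_mem (mem_insert_of_mem (mem_image.2 ⟨s(x, y), mem_erase.2 ⟨?_, hxy⟩, rfl⟩))
      intro e
      rw [Sym2.eq_iff] at e
      rcases e with ⟨e, -⟩ | ⟨e, -⟩
      · exact hsU (e ▸ hx.1)
      · exact htU (e ▸ hx.1)
  · intro u hu h5 h6
    obtain ⟨y, hy, rfl⟩ := mem_image.1 hu
    have h7 := hin y hy (fun e => h5 (by rw [e])) (fun e => h6 (by rw [e]))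
    rw [insert_comm, ← image_insert]
    exact h7

end H56PT
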