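import Pool.Agent.Lib.H8F.Abs
import Pool.Agent.Lib.H56PT.B

/-!
# H56PT, file C: plane spanning subgraphs consisting of a path from `s` to `t` and disjoint cycles (abstract form)
-/

set_option autoImplicit false
set_option linter.unusedSectionVars false

namespace H56PT

open Finset H98P H98Z H98M H63F H30F H85TF

variable {V : Type} [Fintype V] [DecidableEq V]

theorem plane_st' {cross : Sym2 V → Sym2 V → Prop} (hsymm : ∀ e f, cross e f → cross f e)
    (hHD : ∀ W, HD cross W) (hV : 3 ≤ Fintype.card V) {s t : V} (hst : s ≠ t) :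
    ∃ G : Finset (Sym2 V), G ⊆ LW univ ∧ Plane cross G ∧ ¬ H8F.NTC G ∧ K G s t univ := by
  obtain ⟨G, -, hG1, hG2, hG3⟩ := functor hsymm hHD ⟨s, t, hst⟩
    (fun G W => Disc W G ∧ (¬ H8F.NTC G → ¬ K G s t W))
    (fun G G' h _ _ _ W hW => ⟨H8F.disc_anti' h hW.1, fun h1 h2 =>
      hW.2 (fun h3 => h1 (H8F.ntc_anti h h3)) (K_mono h h2)⟩)
    (fun G W _ _ _ hW => hW.1)
  have hE : ∀ e ∈ G, ¬ e.IsDiag := by
    intro e he
    have h1 := hG1 he
    unfold LW at h1
    exact (mem_filter.1 h1).2
  refine ⟨G, hG1, hG2, ?_⟩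
  by_cases hT : H8F.NTC G
  · exfalso
    refine hG3 (ac_congr (fun c => ?_) (H30D.ac_disc G hT))
    constructor
    · exact ch_mono fun W hW => ⟨hW, fun h => absurd hT h⟩
    · exact ch_mono fun W hW => hW.1
  · refine ⟨hT, ?_⟩
    by_contra hc
    have hT1 : ¬ Disc univ G := fun h => hT (Or.inl h)
    have hT2 : ∀ z, ¬ Disc (univ.erase z) G := fun z h => hT (Or.inr ⟨z, h⟩)
    obtain ⟨v, hv⟩ : ∃ v : V, v ∉ ({s, t} : Finset V) := by
      by_contra hcon
      push Not at hcon
      have h1 : (univ : Finset V).card ≤ ({s, t} : Finset V).card := card_le_card fun x _ => hcon x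
      rw [card_univ, card_pair hst] at h1
      omega
    rw [mem_insert, mem_singleton] at hv
    push Not at hv
    have h0 : K G s t ∅ := K_sub (empty_subset _) (K_single hT1 hT2 hst hv.1 hv.2)
    have h1 : ∀ x, K G s t {x} := by
      intro x
      by_cases hxs : x = s
      · subst hxs; exact K_s h0
      by_cases hxt : x = t
      · subst hxt; exact K_t h0
      exact K_single hT1 hT2 hst hxs hxt
    refine hG3 (ac_congr (fun c => ?_) (H96TF.ac_X G (K G s t) (fun A B h => K_sub h)
      h0 h1 (fun A b d U hb hd hbU hdU hU hin => K_exch hE A b d U hb hd hbU hdU hU hin) hc))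
    constructor
    · exact ch_mono fun W hW => ⟨hW.2, fun _ => hW.1⟩
    · exact ch_mono fun W hW => ⟨hW.2 hT, hW.1⟩

/-- Every simple drawing of a complete graph with at least three vertices has a plane 2-connected subdrawing which
contains a spanning subgraph consisting of a path from `s` to `t` and disjoint cycles (abstract form). -/
theorem plane_st {cross : Sym2 V → Sym2 V → Prop} (hsymm : ∀ e f, cross e f → cross f e)
    (hHD : ∀ W, HD cross W) (hV : 3 ≤ Fintype.card V) {s t : V} (hst : s ≠ t) :
    ∃ G : Finset (Sym2 V), G ⊆ LW univ ∧ Plane cross G ∧ ¬ H8F.NTC G ∧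
      ∃ F ⊆ G, s(s, t) ∉ F ∧ dg F s = 1 ∧ dg F t = 1 ∧ ∀ v, v ≠ s → v ≠ t → dg F v = 2 := by
  obtain ⟨G, h1, h2, h3, F', h4, h5, h6⟩ := plane_st' hsymm hHD hV hst
  refine ⟨G, h1, h2, h3, (G.erase s(s, t)).filter fun e => Sym2.map some e ∈ F', ?_, ?_, ?_⟩
  · exact (filter_subset _ _).trans (erase_subset _ _)
  · exact fun h => (mem_erase.1 (mem_filter.1 h).1).1 rfl
  · obtain ⟨h7, h8⟩ := none_edges h4 (h6 none (mem_insert_self _ _))
    have h9 : F' = insert s(none, some s) (insert s(none, some t)
        (((G.erase s(s, t)).filter fun e => Sym2.map some e ∈ F').image (Sym2.map some))) := by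
      ext e
      constructor
      · intro he
        have h10 := h4 he
        rcases mem_insert.1 h10 with h | h
        · exact mem_insert.2 (Or.inl h)
        rcases mem_insert.1 h with h | h
        · exact mem_insert_of_mem (mem_insert.2 (Or.inl h))
        · obtain ⟨e', he', rfl⟩ := mem_image.1 h
          exact mem_insert_of_mem (mem_insert_of_mem (mem_image_of_mem _ (mem_filter.2 ⟨he', he⟩)))
      · intro he
        rcases mem_insert.1 he with rfl | he
        · exact h7
        rcases mem_insert.1 he with rfl | he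
        · exact h8
        · obtain ⟨e', he', rfl⟩ := mem_image.1 he
          exact (mem_filter.1 he').2
    obtain ⟨h10, -⟩ := dg_up (P := (G.erase s(s, t)).filter fun e => Sym2.map some e ∈ F') hst
    rw [← h9] at h10
    have h11 : ∀ v : V, dg F' (some v) = 2 := fun v =>
      h6 _ (mem_insert_of_mem (mem_image_of_mem _ (mem_univ v)))
    refine ⟨?_, ?_, ?_⟩
    · have h12 := h10 s
      rw [h11, if_pos rfl, if_neg hst] at h12
      omega
    · have h12 := h10 t
      rw [h11, if_pos rfl, if_neg (Ne.symm hst)] at h12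
      omega
    · intro v hvs hvt
      have h12 := h10 v
      rw [h11, if_neg hvs, if_neg hvt] at h12
      omega

end H56PT
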