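import Pool.Agent.Lib.H56PT.C
import Pool.Agent.Lib.H85TF.Draw

/-!
# H56PT, file D: a path from `s` to `t` and disjoint cycles in simple drawings
-/

set_option autoImplicit false

open H53P SimpleDraw

namespace H56PT

open Finset H98P H98Z H98M H63F H30F H85TF H63L H97W

/-- For all `s ≠ t` every simple drawing of `K_n`, `n ≥ 3`, has a plane 2-connected subdrawing with at most `2n - 3`
edges which contains a subgraph without the edge `st`, with degree `1` at `s` and `t` and degree `2` elsewhere. -/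
theorem pathCycles_drawing {n : ℕ} (hn : 3 ≤ n) (D : SimpleDrawing n) {s t : Fin n} (hst : s ≠ t) :
    ∃ G : SimpleGraph (Fin n), D.Plane G ∧ G.Connected ∧ (∀ v, (G.induce {w | w ≠ v}).Connected) ∧
      G.edgeSet.ncard ≤ 2 * n - 3 ∧ ∃ F ≤ G, ¬ F.Adj s t ∧
        ∀ v, (F.neighborSet v).ncard = if v = s ∨ v = t then 1 else 2 := by
  obtain ⟨G, hGL, hGP, hT, F, hF, hne, hs, ht, h2⟩ := plane_st
    (H53P.crossT_symm (H53P.table D)) (H98W.hd_table (H53P.table D)) (by rw [Fintype.card_fin]; exact hn) hst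
  have h3 : ∀ v, dg F v = if v = s ∨ v = t then 1 else 2 := by
    intro v
    by_cases h4 : v = s
    · subst h4
      rw [if_pos (Or.inl rfl), hs]
    by_cases h5 : v = t
    · subst h5
      rw [if_pos (Or.inr rfl), ht]
    rw [if_neg (by tauto), h2 v h4 h5]
  have h10 : ∀ v, dg F v ≤ 2 := by
    intro v
    rw [h3]
    split <;> omega
  obtain ⟨H, h4, h5, h6, h7, h8, h9⟩ := toDrawing hn D hGL hGP (fun h => hT (Or.inl h))
    (fun z h => hT (Or.inr ⟨z, h⟩)) hF h10
  refine ⟨H, h4, h5, h6, h7, gr F, h8, ?_, fun v => (h9 v).trans (h3 v)⟩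
  intro h11
  apply hne
  have h12 : s(s, t) ∈ (gr F).edgeSet := h11
  have h13 : s(s, t) ∈ (SimpleGraph.fromEdgeSet (F : Set (Sym2 (Fin n)))).edgeSet := h12
  rw [SimpleGraph.edgeSet_fromEdgeSet] at h13
  exact_mod_cast h13.1

end H56PT
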