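import Pool.Agent.Lib.H36R.PT
import Pool.Agent.Lib.H85TF.Draw

/-!
# H56PT, file E: plane 2-factors without triangles, and paths from `s` to `t` with cycles, in simple drawings
-/

set_option autoImplicit false

open H53P SimpleDraw

namespace H56PT

open Finset H98P H98Z H98M H63F H30F H85TF H63L H97W

theorem gr_adj {n : ℕ} {F : Finset (Sym2 (Fin n))} {a b : Fin n} (h : (gr F).Adj a b) : s(a, b) ∈ F := by
  have h13 : s(a, b) ∈ (SimpleGraph.fromEdgeSet (F : Set (Sym2 (Fin n)))).edgeSet := h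
  rw [SimpleGraph.edgeSet_fromEdgeSet] at h13
  exact_mod_cast h13.1

theorem gr_cliqueFree {n : ℕ} {F : Finset (Sym2 (Fin n))} (hN : H50TF.NT F) : (gr F).CliqueFree 3 := by
  intro T hT
  rw [SimpleGraph.is3Clique_iff] at hT
  obtain ⟨a, b, c, h1, h2, h3, -⟩ := hT
  exact hN a b c (gr_adj h1) (gr_adj h3) (gr_adj h2)

/-- Every simple drawing of `K_n`, `n ≥ 4`, has a plane 2-connected subdrawing with at most `2n - 3` edges which
contains a 2-factor all of whose cycles have length at least four. -/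
theorem twoFactor4_drawing {n : ℕ} (hn : 4 ≤ n) (D : SimpleDrawing n) :
    ∃ G : SimpleGraph (Fin n), D.Plane G ∧ G.Connected ∧ (∀ v, (G.induce {w | w ≠ v}).Connected) ∧
      G.edgeSet.ncard ≤ 2 * n - 3 ∧ ∃ F ≤ G, F.CliqueFree 3 ∧ ∀ v, (F.neighborSet v).ncard = 2 := by
  obtain ⟨G, hGL, hGP, hT, hT2, F, hF, -, hN, h2⟩ := H50TF.plane_two_factor4
    (H53P.crossT_symm (H53P.table D)) (H98W.hd_table (H53P.table D)) (by rw [Fintype.card_fin]; exact hn)
  have h3 : ∀ v, dg F v = 2 := fun v => h2 v (mem_univ _)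
  obtain ⟨H, h4, h5, h6, h7, h8, h9⟩ := toDrawing (by omega) D hGL hGP hT hT2 hF fun v => (h3 v).le
  exact ⟨H, h4, h5, h6, h7, gr F, h8, gr_cliqueFree hN, fun v => (h9 v).trans (h3 v)⟩

/-- For all `s ≠ t` every simple drawing of `K_n`, `n ≥ 3`, has a plane 2-connected subdrawing with at most `2n - 3`
edges which contains a spanning triangle-free subgraph without the edge `st`, with degree `1` at `s` and `t` and degree
`2` elsewhere. -/
theorem pathCycles4_drawing {n : ℕ} (hn : 3 ≤ n) (D : SimpleDrawing n) {s t : Fin n} (hst : s ≠ t) :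
    ∃ G : SimpleGraph (Fin n), D.Plane G ∧ G.Connected ∧ (∀ v, (G.induce {w | w ≠ v}).Connected) ∧
      G.edgeSet.ncard ≤ 2 * n - 3 ∧ ∃ F ≤ G, F.CliqueFree 3 ∧ ¬ F.Adj s t ∧
        ∀ v, (F.neighborSet v).ncard = if v = s ∨ v = t then 1 else 2 := by
  obtain ⟨G, hGL, hGP, hT, F, hF, hN, hne, h3⟩ := H36R.plane_pair4
    (H53P.crossT_symm (H53P.table D)) (H98W.hd_table (H53P.table D)) (by rw [Fintype.card_fin]; exact hn) hst
  have h10 : ∀ v, dg F v ≤ 2 := by
    intro v
    rw [h3]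
    split <;> omega
  obtain ⟨H, h4, h5, h6, h7, h8, h9⟩ := toDrawing hn D hGL hGP hT.1 hT.2 hF h10
  exact ⟨H, h4, h5, h6, h7, gr F, h8, gr_cliqueFree hN, fun h => hne (gr_adj h),
    fun v => (h9 v).trans (h3 v)⟩

end H56PT
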