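import Pool.Agent.Lib.H56PT.E

/-!
# H56PT, file F: one statement for the plane 2-factor and its `s`-`t` version
-/

set_option autoImplicit false

open SimpleDraw

namespace H56PT

/-- For all vertices `s`, `t` (equal or not) every simple drawing of `K_n`, `n ≥ 4`, has a plane 2-connected subdrawing
with at most `2n - 3` edges which contains a spanning triangle-free subgraph `F` without the edge `st` in which every
vertex has exactly two neighbours, except that `s` and `t` have exactly one if `s ≠ t`. -/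
theorem factor_drawing {n : ℕ} (hn : 4 ≤ n) (D : SimpleDrawing n) (s t : Fin n) :
    ∃ G : SimpleGraph (Fin n), D.Plane G ∧ G.Connected ∧ (∀ v : Fin n, (G.induce {w | w ≠ v}).Connected) ∧
      G.edgeSet.ncard ≤ 2 * n - 3 ∧ ∃ F ≤ G, F.CliqueFree 3 ∧ ¬ F.Adj s t ∧
        ∀ v : Fin n, (F.neighborSet v).ncard = if s ≠ t ∧ (v = s ∨ v = t) then 1 else 2 := by
  by_cases hst : s = t
  · obtain ⟨G, h1, h2, h3, h4, F, h5, h6, h7⟩ := twoFactor4_drawing hn D
    refine ⟨G, h1, h2, h3, h4, F, h5, h6, ?_, fun v => ?_⟩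
    · rw [hst]
      exact F.irrefl
    · rw [if_neg (fun h => h.1 hst)]
      exact h7 v
  · obtain ⟨G, h1, h2, h3, h4, F, h5, h6, h7, h8⟩ := pathCycles4_drawing (by omega) D hst
    refine ⟨G, h1, h2, h3, h4, F, h5, h6, h7, fun v => ?_⟩
    rw [h8 v]
    by_cases h9 : v = s ∨ v = t
    · rw [if_pos h9, if_pos ⟨hst, h9⟩]
    · rw [if_neg h9, if_neg (fun h => h9 h.2)]

end H56PT
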