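import Pool.Agent.Lib.H56PT.B
import Pool.Agent.Lib.H9TP.C5

/-!
# H56PT, file G: the virtual path `s - z1 - z2 - t` and covers by cycles of length at least five

`up5 G s t`: the graph on `V ⊕ Bool` with the edges of `G` except `st` and a path from `s` to `t` through the two new
vertices. `K5 G s t A`: the set `A` and the new vertices are covered by disjoint cycles of length at least five of
`up5 G s t`; the cycle through the new vertices has length at least five if and only if the path from `s` to `t` in it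
has an inner vertex.
-/

set_option autoImplicit false
set_option linter.unusedSectionVars false

namespace H56PT

open Finset H85TF

section gen

variable {V W : Type*} [DecidableEq V] [DecidableEq W]

theorem two_edges {F : Finset (Sym2 W)} {x : W} {e1 e2 : Sym2 W} (h : dg F x = 2)
    (hs : ∀ e ∈ F, x ∈ e → e = e1 ∨ e = e2) : e1 ∈ F ∧ e2 ∈ F := by
  have h1 : (F.filter fun e => x ∈ e) ⊆ {e1, e2} := by
    intro e he
    obtain ⟨h2, h3⟩ := mem_filter.1 he
    rw [mem_insert, mem_singleton]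
    exact hs e h2 h3
  have h2 : ({e1, e2} : Finset (Sym2 W)).card ≤ (F.filter fun e => x ∈ e).card := by
    have h3 : (F.filter fun e => x ∈ e).card = 2 := h
    rw [h3]
    exact card_le_two
  have h3 := eq_of_subset_of_card_le h1 h2
  constructor
  · have h4 : e1 ∈ F.filter fun e => x ∈ e := by rw [h3]; simp
    exact (mem_filter.1 h4).1
  · have h4 : e2 ∈ F.filter fun e => x ∈ e := by rw [h3]; simp
    exact (mem_filter.1 h4).1

theorem nbr_two {F : Finset (Sym2 W)} {a a1 a2 b : W} (h : dg F a = 0 ∨ dg F a = 2) (h1 : s(a, a1) ∈ F)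
    (h2 : s(a, a2) ∈ F) (h12 : a1 ≠ a2) (hb : s(a, b) ∈ F) : b = a1 ∨ b = a2 := by
  by_contra hcon
  push Not at hcon
  have hinj : ∀ p q : W, s(a, p) = s(a, q) → p = q := by
    intro p q h
    rcases Sym2.eq_iff.1 h with h | h
    · exact h.2
    · exact h.2.trans h.1
  have hsub : ({s(a, a1), s(a, a2), s(a, b)} : Finset (Sym2 W)) ⊆ F.filter fun e => a ∈ e := by
    intro e he
    simp only [mem_insert, mem_singleton] at he
    rcases he with rfl | rfl | rfl
    · exact mem_filter.2 ⟨h1, by simp⟩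
    · exact mem_filter.2 ⟨h2, by simp⟩
    · exact mem_filter.2 ⟨hb, by simp⟩
  have hc : ({s(a, a1), s(a, a2), s(a, b)} : Finset (Sym2 W)).card = 3 := by
    rw [card_insert_of_notMem, card_insert_of_notMem, card_singleton]
    · rw [mem_singleton]
      exact fun h => hcon.2 (hinj _ _ h).symm
    · rw [mem_insert, mem_singleton]
      rintro (h | h)
      · exact h12 (hinj _ _ h)
      · exact hcon.1 (hinj _ _ h).symm
  have h3 := card_le_card hsub
  unfold dg at h
  omega

theorem dg_map {ι : V → W} (hι : Function.Injective ι) (P : Finset (Sym2 V)) (r : V) :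
    dg (P.image (Sym2.map ι)) (ι r) = dg P r := by
  unfold dg
  rw [filter_image, card_image_of_injective _ (Sym2.map.injective hι)]
  congr 1
  refine filter_congr fun e _ => ?_
  rw [Sym2.mem_map]
  constructor
  · rintro ⟨a, ha, h⟩
    rwa [← hι h]
  · exact fun h => ⟨r, h, rfl⟩

theorem dg_map_zero {ι : V → W} (P : Finset (Sym2 V)) {w : W} (hw : ∀ r, ι r ≠ w) :
    dg (P.image (Sym2.map ι)) w = 0 := by
  unfold dg
  rw [card_eq_zero, filter_eq_empty_iff]
  intro e he hn
  obtain ⟨e', he', rfl⟩ := mem_image.1 he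
  rw [Sym2.mem_map] at hn
  obtain ⟨a, -, ha⟩ := hn
  exact hw a ha

theorem notMem_map {ι : V → W} (P : Finset (Sym2 V)) {w w' : W} (hw : ∀ r, ι r ≠ w) :
    s(w, w') ∉ P.image (Sym2.map ι) := by
  intro h
  obtain ⟨e', he', h1⟩ := mem_image.1 h
  have h2 : w ∈ Sym2.map ι e' := by rw [h1]; exact Sym2.mem_mk_left _ _
  rw [Sym2.mem_map] at h2
  obtain ⟨a, -, ha⟩ := h2
  exact hw a ha

theorem walk_closed {F : Finset (Sym2 V)} {T : Finset V} (hT : ∀ a ∈ T, ∀ b, s(a, b) ∈ F → b ∈ T)
    {G : SimpleGraph V} {u v : V} (p : G.Walk u v) :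
    (∀ e ∈ p.edges, e ∈ F) → ∀ x ∈ p.support, (x ∈ T ↔ u ∈ T) := by
  induction p with
  | nil =>
    intro _ x hx
    rw [SimpleGraph.Walk.support_nil, List.mem_singleton] at hx
    rw [hx]
  | @cons a b c h q ih =>
    intro he x hx
    have h1 : s(a, b) ∈ F := he _ (by simp)
    have h2 := ih (fun e h' => he e (by simp [h']))
    have hab : a ∈ T ↔ b ∈ T :=
      ⟨fun h' => hT a h' b h1, fun h' => hT b h' a (by rw [Sym2.eq_swap]; exact h1)⟩
    rw [SimpleGraph.Walk.support_cons, List.mem_cons] at hx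
    rcases hx with rfl | hx
    · exact Iff.rfl
    · rw [h2 x hx, hab]

end gen

variable {V : Type} [Fintype V] [DecidableEq V]

/-- The graph with the virtual path. -/
def up5 (G : Finset (Sym2 V)) (s t : V) : Finset (Sym2 (V ⊕ Bool)) :=
  insert s(Sum.inr false, Sum.inl s) (insert s(Sum.inr true, Sum.inl t)
    (insert s(Sum.inr false, Sum.inr true) ((G.erase s(s, t)).image (Sym2.map Sum.inl))))

def K5 (G : Finset (Sym2 V)) (s t : V) (A : Finset V) : Prop :=
  H8F.Cov5 (up5 G s t) (insert (Sum.inr false) (A.image Sum.inl))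

theorem mem_up5 {G : Finset (Sym2 V)} {s t : V} {e : Sym2 (V ⊕ Bool)} : e ∈ up5 G s t ↔
    e = s(Sum.inr false, Sum.inl s) ∨ e = s(Sum.inr true, Sum.inl t) ∨ e = s(Sum.inr false, Sum.inr true) ∨
      ∃ e' ∈ G.erase s(s, t), Sym2.map Sum.inl e' = e := by
  unfold up5
  rw [mem_insert, mem_insert, mem_insert, mem_image]

theorem up5_mono {G G' : Finset (Sym2 V)} (h : G ⊆ G') (s t : V) : up5 G s t ⊆ up5 G' s t :=
  insert_subset_insert _ (insert_subset_insert _ (insert_subset_insert _
    (image_subset_image (erase_subset_erase _ h))))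

theorem up5_diag {G : Finset (Sym2 V)} (hG : ∀ e ∈ G, ¬ e.IsDiag) (s t : V) :
    ∀ e ∈ up5 G s t, ¬ e.IsDiag := by
  intro e he
  rcases mem_up5.1 he with rfl | rfl | rfl | ⟨e', he', rfl⟩
  · simp
  · simp
  · simp
  · have h1 := hG e' (mem_of_mem_erase he')
    induction e' with
    | _ a b =>
      rw [Sym2.mk_isDiag_iff] at h1
      rw [Sym2.map_mk, Sym2.mk_isDiag_iff]
      exact fun e => h1 (Sum.inl_injective e)

theorem K5_sub {G : Finset (Sym2 V)} {s t : V} {A B : Finset V} (h : A ⊆ B) (hB : K5 G s t B) :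
    K5 G s t A :=
  H8F.cov5_sub (insert_subset_insert _ (image_subset_image h)) hB

theorem K5_mono {G G' : Finset (Sym2 V)} {s t : V} {A : Finset V} (h : G ⊆ G') (hA : K5 G s t A) :
    K5 G' s t A := H8F.cov5_edges (up5_mono h s t) hA

theorem mem_false {G : Finset (Sym2 V)} {s t : V} {e : Sym2 (V ⊕ Bool)} (he : e ∈ up5 G s t)
    (hn : Sum.inr false ∈ e) : e = s(Sum.inr false, Sum.inl s) ∨ e = s(Sum.inr false, Sum.inr true) := by
  rcases mem_up5.1 he with h | h | h | ⟨e', he', rfl⟩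
  · exact Or.inl h
  · rw [h, Sym2.mem_iff] at hn
    simp at hn
  · exact Or.inr h
  · rw [Sym2.mem_map] at hn
    obtain ⟨a, -, ha⟩ := hn
    exact absurd ha (by simp)

theorem mem_true {G : Finset (Sym2 V)} {s t : V} {e : Sym2 (V ⊕ Bool)} (he : e ∈ up5 G s t)
    (hn : Sum.inr true ∈ e) : e = s(Sum.inr true, Sum.inl t) ∨ e = s(Sum.inr false, Sum.inr true) := by
  rcases mem_up5.1 he with h | h | h | ⟨e', he', rfl⟩
  · rw [h, Sym2.mem_iff] at hn
    simp at hn
  · exact Or.inl h
  · exact Or.inr h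
  · rw [Sym2.mem_map] at hn
    obtain ⟨a, -, ha⟩ := hn
    exact absurd ha (by simp)

/-- If the first new vertex is covered then the whole virtual path is used. -/
theorem virt {G : Finset (Sym2 V)} {s t : V} {F : Finset (Sym2 (V ⊕ Bool))} (hF : F ⊆ up5 G s t)
    (hdeg : ∀ v, dg F v = 0 ∨ dg F v = 2) (h : dg F (Sum.inr false) = 2) :
    s(Sum.inr false, Sum.inl s) ∈ F ∧ s(Sum.inr true, Sum.inl t) ∈ F ∧ s(Sum.inr false, Sum.inr true) ∈ F ∧
      dg F (Sum.inr true) = 2 ∧ dg F (Sum.inl s) = 2 ∧ dg F (Sum.inl t) = 2 := by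
  obtain ⟨h1, h2⟩ := two_edges h fun e he hn => mem_false (hF he) hn
  have h3 : dg F (Sum.inr true) = 2 := (hdeg _).resolve_left (H85TF.dg_pos' h2).ne'
  obtain ⟨h4, -⟩ := two_edges h3 fun e he hn => mem_true (hF he) hn
  exact ⟨h1, h4, h2, h3, (hdeg _).resolve_left (H85TF.dg_pos' h1).ne',
    (hdeg _).resolve_left (H85TF.dg_pos' h4).ne'⟩

theorem K5_s {G : Finset (Sym2 V)} {s t : V} {A : Finset V} (h : K5 G s t A) : K5 G s t (insert s A) := by
  obtain ⟨F, h1, h2, h3, h4, h5⟩ := h
  refine ⟨F, h1, h2, h3, h4, fun v hv => ?_⟩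
  rw [image_insert, mem_insert, mem_insert] at hv
  rcases hv with rfl | rfl | hv
  · exact h5 _ (mem_insert_self _ _)
  · exact (virt h1 h2 (h5 _ (mem_insert_self _ _))).2.2.2.2.1
  · exact h5 _ (mem_insert_of_mem hv)

theorem K5_t {G : Finset (Sym2 V)} {s t : V} {A : Finset V} (h : K5 G s t A) : K5 G s t (insert t A) := by
  obtain ⟨F, h1, h2, h3, h4, h5⟩ := h
  refine ⟨F, h1, h2, h3, h4, fun v hv => ?_⟩
  rw [image_insert, mem_insert, mem_insert] at hv
  rcases hv with rfl | rfl | hv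
  · exact h5 _ (mem_insert_self _ _)
  · exact (virt h1 h2 (h5 _ (mem_insert_self _ _))).2.2.2.2.2
  · exact h5 _ (mem_insert_of_mem hv)

/-- The degrees after adding the virtual path. -/
theorem dg_up5 {P : Finset (Sym2 V)} {s t : V} {F : Finset (Sym2 (V ⊕ Bool))}
    (hF : F = insert s(Sum.inr false, Sum.inl s) (insert s(Sum.inr true, Sum.inl t)
      (insert s(Sum.inr false, Sum.inr true) (P.image (Sym2.map Sum.inl))))) :
    (∀ r : V, dg F (Sum.inl r) = dg P r + (if r = s then 1 else 0) + (if r = t then 1 else 0)) ∧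
    ∀ b : Bool, dg F (Sum.inr b) = 2 := by
  rw [hF]
  have h0 : ∀ b : Bool, ∀ r : V, (Sum.inl r : V ⊕ Bool) ≠ Sum.inr b := fun b r => by simp
  have h1 : s((Sum.inr false : V ⊕ Bool), Sum.inl s) ∉ insert s(Sum.inr true, Sum.inl t)
      (insert s(Sum.inr false, Sum.inr true) (P.image (Sym2.map Sum.inl))) := by
    rw [mem_insert, mem_insert]
    rintro (h | h | h)
    · simp at h
    · simp at h
    · exact notMem_map P (h0 false) h
  have h2 : s((Sum.inr true : V ⊕ Bool), Sum.inl t) ∉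
      insert s(Sum.inr false, Sum.inr true) (P.image (Sym2.map Sum.inl)) := by
    rw [mem_insert]
    rintro (h | h)
    · simp at h
    · exact notMem_map P (h0 true) h
  have h3 : s((Sum.inr false : V ⊕ Bool), Sum.inr true) ∉ P.image (Sym2.map Sum.inl) :=
    notMem_map P (h0 false)
  constructor
  · intro r
    rw [dg_insert h1, dg_insert h2, dg_insert h3, dg_map Sum.inl_injective]
    simp only [reduceCtorEq, false_or, Sum.inl.injEq, or_self, if_false]
    omega
  · intro b
    rw [dg_insert h1, dg_insert h2, dg_insert h3, dg_map_zero P (h0 b)]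
    cases b <;> simp

/-- A set which is closed under the edges of the cycle has at least five elements. -/
theorem closed_big {G : SimpleGraph V} {s t v : V} (p : G.Walk s t) (hv : v ∈ p.support) (hst : s ≠ t)
    (hvs : v ≠ s) (hvt : v ≠ t) {T : Finset (V ⊕ Bool)} {F : Finset (Sym2 (V ⊕ Bool))}
    (hF : F = insert s(Sum.inr false, Sum.inl s) (insert s(Sum.inr true, Sum.inl t)
      (insert s(Sum.inr false, Sum.inr true) (p.edges.toFinset.image (Sym2.map Sum.inl)))))
    (hT : ∀ a ∈ T, ∀ b, s(a, b) ∈ F → b ∈ T) {x y : V ⊕ Bool} (hx : x ∈ T) (hxy : s(x, y) ∈ F) :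
    5 ≤ T.card := by
  have e1 : s(Sum.inr false, Sum.inl s) ∈ F := by rw [hF]; simp
  have e2 : s(Sum.inr true, Sum.inl t) ∈ F := by rw [hF]; simp
  have e3 : s(Sum.inr false, Sum.inr true) ∈ F := by rw [hF]; simp
  have hsup : ∀ r ∈ p.support, (Sum.inl r ∈ T ↔ Sum.inl s ∈ T) := by
    intro r hr
    have h1 := walk_closed (F := p.edges.toFinset) (T := univ.filter fun r => Sum.inl r ∈ T)
      (fun a ha b hab => by
        rw [mem_filter] at ha ⊢
        refine ⟨mem_univ _, hT _ ha.2 _ ?_⟩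
        rw [hF]
        exact mem_insert_of_mem (mem_insert_of_mem (mem_insert_of_mem (mem_image.2 ⟨s(a, b), hab, rfl⟩))))
      p (fun e he => List.mem_toFinset.2 he) r hr
    rw [mem_filter, mem_filter] at h1
    simpa using h1
  have ht : Sum.inl t ∈ T ↔ Sum.inl s ∈ T := hsup t p.end_mem_support
  have sw : ∀ {a b : V ⊕ Bool}, s(a, b) ∈ F → s(b, a) ∈ F := fun {a b} h => by
    rw [Sym2.eq_swap]; exact h
  have hs : Sum.inl s ∈ T := by
    have h1 := hxy
    rw [hF, mem_insert, mem_insert, mem_insert, mem_image] at h1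
    rcases h1 with h1 | h1 | h1 | ⟨e', he', h1⟩
    · rcases Sym2.eq_iff.1 h1 with ⟨h2, -⟩ | ⟨h2, -⟩
      · exact hT _ (h2 ▸ hx) _ e1
      · exact h2 ▸ hx
    · rcases Sym2.eq_iff.1 h1 with ⟨h2, -⟩ | ⟨h2, -⟩
      · exact ht.1 (hT _ (h2 ▸ hx) _ e2)
      · exact ht.1 (h2 ▸ hx)
    · rcases Sym2.eq_iff.1 h1 with ⟨h2, -⟩ | ⟨h2, -⟩
      · exact hT _ (h2 ▸ hx) _ e1
      · exact ht.1 (hT _ (h2 ▸ hx) _ e2)
    · induction e' with
      | _ a b =>
        rw [List.mem_toFinset] at he'
        rw [Sym2.map_mk, Sym2.eq_iff] at h1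
        rcases h1 with ⟨h2, -⟩ | ⟨-, h2⟩
        · exact (hsup a (p.fst_mem_support_of_mem_edges he')).1 (h2 ▸ hx)
        · exact (hsup b (p.snd_mem_support_of_mem_edges he')).1 (h2 ▸ hx)
  have ht' := ht.2 hs
  have hf := hT _ hs _ (sw e1)
  have htr := hT _ ht' _ (sw e2)
  have hv' := (hsup v hv).2 hs
  have hsub : ({Sum.inl s, Sum.inl t, Sum.inl v, Sum.inr false, Sum.inr true} : Finset (V ⊕ Bool)) ⊆ T := by
    intro z hz
    simp only [mem_insert, mem_singleton] at hz
    rcases hz with rfl | rfl | rfl | rfl | rfl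
    · exact hs
    · exact ht'
    · exact hv'
    · exact hf
    · exact htr
  have hcard : ({Sum.inl s, Sum.inl t, Sum.inl v, Sum.inr false, Sum.inr true} :
      Finset (V ⊕ Bool)).card = 5 := by
    rw [card_insert_of_notMem, card_insert_of_notMem, card_insert_of_notMem, card_insert_of_notMem,
      card_singleton]
    · simp
    · simp
    · simp [hvt.symm]
    · simp [hst, hvs.symm]
  have := card_le_card hsub
  omega

theorem K5_single {G : Finset (Sym2 V)} (hc : ¬ H98M.Disc univ G)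
    (hcut : ∀ z, ¬ H98M.Disc (univ.erase z) G) {s t v : V} (hst : s ≠ t) (hvs : v ≠ s) (hvt : v ≠ t) :
    K5 G s t {v} := by
  obtain ⟨p, hp, hv⟩ := st_path hc hcut hst hvs hvt
  have hdeg := dg_path p hp
  obtain ⟨F, hF⟩ : ∃ F : Finset (Sym2 (V ⊕ Bool)), F = insert s(Sum.inr false, Sum.inl s)
      (insert s(Sum.inr true, Sum.inl t)
        (insert s(Sum.inr false, Sum.inr true) (p.edges.toFinset.image (Sym2.map Sum.inl)))) := ⟨_, rfl⟩
  obtain ⟨h1, h2⟩ := dg_up5 hF
  have hd : ∀ x, dg F x = 0 ∨ dg F x = 2 := by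
    intro x
    cases x with
    | inr b => exact Or.inr (h2 b)
    | inl r =>
      rw [h1, hdeg]
      split
      · exact Or.inr rfl
      · exact Or.inl rfl
  have hloop : ∀ {a b : V ⊕ Bool}, s(a, b) ∈ F → a ≠ b := by
    intro a b hab h
    subst h
    rw [hF, mem_insert, mem_insert, mem_insert, mem_image] at hab
    rcases hab with h3 | h3 | h3 | ⟨e', he', h3⟩
    · rcases Sym2.eq_iff.1 h3 with ⟨h4, h5⟩ | ⟨h4, h5⟩
      · rw [h4] at h5; simp at h5
      · rw [h4] at h5; simp at h5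
    · rcases Sym2.eq_iff.1 h3 with ⟨h4, h5⟩ | ⟨h4, h5⟩
      · rw [h4] at h5; simp at h5
      · rw [h4] at h5; simp at h5
    · rcases Sym2.eq_iff.1 h3 with ⟨h4, h5⟩ | ⟨h4, h5⟩
      · rw [h4] at h5; simp at h5
      · rw [h4] at h5; simp at h5
    · induction e' with
      | _ c d =>
        rw [List.mem_toFinset] at he'
        have h4 := p.adj_of_mem_edges he'
        rw [Sym2.map_mk, Sym2.eq_iff] at h3
        rcases h3 with ⟨h5, h6⟩ | ⟨h5, h6⟩
        · exact h4.ne (Sum.inl_injective (h5.trans h6.symm))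
        · exact h4.ne (Sum.inl_injective (h5.trans h6.symm))
  have sw : ∀ {a b : V ⊕ Bool}, s(a, b) ∈ F → s(b, a) ∈ F := fun {a b} h => by
    rw [Sym2.eq_swap]; exact h
  refine ⟨F, ?_, hd, ?_, ?_, ?_⟩
  · rw [hF]
    refine insert_subset_insert _ (insert_subset_insert _ (insert_subset_insert _ (image_subset_image ?_)))
    intro e he
    rw [List.mem_toFinset] at he
    have h3 := p.edges_subset_edgeSet he
    rw [SimpleGraph.edgeSet_fromEdgeSet] at h3
    exact_mod_cast h3.1
  · intro x y z hxy hyz hxz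
    have h3 := closed_big p hv hst hvs hvt (T := {x, y, z}) hF (fun a ha b hab => ?_)
      (mem_insert_self _ _) hxy
    · have h4 : ({x, y, z} : Finset (V ⊕ Bool)).card ≤ 3 := card_le_three
      omega
    · simp only [mem_insert, mem_singleton] at ha ⊢
      rcases ha with rfl | rfl | rfl
      · rcases nbr_two (hd _) hxy hxz (hloop hyz) hab with h | h <;> simp [h]
      · rcases nbr_two (hd _) (sw hxy) hyz (hloop hxz) hab with h | h <;> simp [h]
      · rcases nbr_two (hd _) (sw hxz) (sw hyz) (hloop hxy) hab with h | h <;> simp [h]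
  · intro x y z w hxz hyw hxy hyz hzw hwx
    have h3 := closed_big p hv hst hvs hvt (T := {x, y, z, w}) hF (fun a ha b hab => ?_)
      (mem_insert_self _ _) hxy
    · have h4 : ({x, y, z, w} : Finset (V ⊕ Bool)).card ≤ 4 := card_le_four
      omega
    · simp only [mem_insert, mem_singleton] at ha ⊢
      rcases ha with rfl | rfl | rfl | rfl
      · rcases nbr_two (hd _) hxy (sw hwx) hyw hab with h | h <;> simp [h]
      · rcases nbr_two (hd _) (sw hxy) hyz hxz hab with h | h <;> simp [h]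
      · rcases nbr_two (hd _) (sw hyz) hzw hyw hab with h | h <;> simp [h]
      · rcases nbr_two (hd _) (sw hzw) hwx hxz.symm hab with h | h <;> simp [h]
  · intro x hx
    rw [image_singleton, mem_insert, mem_singleton] at hx
    rcases hx with rfl | rfl
    · exact h2 false
    · rw [h1, hdeg, if_pos hv]

/-- The exchange property of `K5`. -/
theorem K5_exch {G : Finset (Sym2 V)} (hG : ∀ e ∈ G, ¬ e.IsDiag) {s t : V} (A : Finset V) (b d : V)
    (U : Finset V) (hb : K5 G s t (insert b A)) (hd : K5 G s t (insert d A)) (hbU : b ∈ U) (hdU : d ∈ U)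
    (hU : ¬ H98M.Disc U G) (hin : ∀ u ∈ U, u ≠ b → u ≠ d → ¬ K5 G s t (insert u A)) :
    K5 G s t (insert b (insert d A)) := by
  have hA : K5 G s t A := K5_sub (subset_insert _ _) hb
  by_cases h1 : b = s
  · subst h1; exact K5_s hd
  by_cases h2 : b = t
  · subst h2; exact K5_t hd
  by_cases h3 : d = s
  · subst h3; rw [insert_comm]; exact K5_s hb
  by_cases h4 : d = t
  · subst h4; rw [insert_comm]; exact K5_t hb
  have hsU : s ∉ U := fun h => hin s h (Ne.symm h1) (Ne.symm h3) (K5_s hA)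
  have key := H9TP.exch5_set (up5_diag hG s t) (A := insert (Sum.inr false) (A.image Sum.inl))
    (U := U.image Sum.inl) (b := Sum.inl b) (d := Sum.inl d)
    (by rw [insert_comm, ← image_insert]; exact hb) (by rw [insert_comm, ← image_insert]; exact hd)
    (mem_image_of_mem _ hbU) (mem_image_of_mem _ hdU) ?_ ?_
  · rw [insert_comm (Sum.inl d), insert_comm (Sum.inl b), ← image_insert, ← image_insert] at key
    exact key
  · rintro ⟨C, D, hC, hD, hCD, hCU, hno⟩
    have hC' : ∀ x ∈ C, ∃ y ∈ U, Sum.inl y = x := fun x hx => by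
      have h5 : x ∈ U.image Sum.inl := hCU ▸ mem_union_left _ hx
      exact mem_image.1 h5
    have hD' : ∀ x ∈ D, ∃ y ∈ U, Sum.inl y = x := fun x hx => by
      have h5 : x ∈ U.image Sum.inl := hCU ▸ mem_union_right _ hx
      exact mem_image.1 h5
    refine hU ⟨U.filter fun x => Sum.inl x ∈ C, U.filter fun x => Sum.inl x ∈ D, ?_, ?_, ?_, ?_, ?_⟩
    · obtain ⟨x, hx⟩ := hC
      obtain ⟨y, hy, rfl⟩ := hC' x hx
      exact ⟨y, mem_filter.2 ⟨hy, hx⟩⟩
    · obtain ⟨x, hx⟩ := hD
      obtain ⟨y, hy, rfl⟩ := hD' x hx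
      exact ⟨y, mem_filter.2 ⟨hy, hx⟩⟩
    · rw [disjoint_left]
      intro x hx hx'
      exact disjoint_left.1 hCD (mem_filter.1 hx).2 (mem_filter.1 hx').2
    · ext x
      rw [mem_union, mem_filter, mem_filter]
      constructor
      · rintro (h | h) <;> exact h.1
      · intro h
        have h5 : Sum.inl x ∈ C ∪ D := hCU ▸ mem_image_of_mem _ h
        rcases mem_union.1 h5 with h6 | h6
        · exact Or.inl ⟨h, h6⟩
        · exact Or.inr ⟨h, h6⟩
    · intro x hx y hy hxy
      rw [mem_filter] at hx hy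
      refine hno _ hx.2 _ hy.2 (mem_up5.2 (Or.inr (Or.inr (Or.inr ⟨s(x, y), mem_erase.2 ⟨?_, hxy⟩, rfl⟩))))
      intro e
      rw [Sym2.eq_iff] at e
      rcases e with ⟨e, -⟩ | ⟨-, e⟩
      · exact hsU (e ▸ hx.1)
      · exact hsU (e ▸ hy.1)
  · intro u hu h5 h6
    obtain ⟨y, hy, rfl⟩ := mem_image.1 hu
    have h7 := hin y hy (fun e => h5 (by rw [e])) (fun e => h6 (by rw [e]))
    rw [insert_comm, ← image_insert]
    exact h7

end H56PT
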